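import Mathlib
import Pool.Agent.J4H38.GS.Stm2

/-!
# Project GS, (Z4): the weighted integral of the powers of zeta to the left of the critical line
-/

set_option autoImplicit false

open MeasureTheory Set Filter Polynomial

namespace Pool.Agent.J4H94.GS

open Pool.Agent.J4H38.GS

theorem meas_S : MeasurableSet {t : ℝ | 1 ≤ |t|} := measurableSet_le measurable_const measurable_norm

theorem tail_fin {w : ℝ} (hw : 1 < w) : ∫⁻ t in {t : ℝ | 1 ≤ |t|}, ENNReal.ofReal (|t| ^ (-w)) < ⊤ := by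
  have hint : Integrable (fun t : ℝ => 2 ^ w * (1 + ‖t‖) ^ (-w)) := by
    apply Integrable.const_mul
    apply integrable_one_add_norm
    rw [Module.finrank_self]
    exact_mod_cast hw
  refine lt_of_le_of_lt ?_ hint.lintegral_lt_top
  calc ∫⁻ t in {t : ℝ | 1 ≤ |t|}, ENNReal.ofReal (|t| ^ (-w)) ≤
        ∫⁻ t in {t : ℝ | 1 ≤ |t|}, ENNReal.ofReal (2 ^ w * (1 + ‖t‖) ^ (-w)) := by
        apply setLIntegral_mono' meas_S
        intro t ht
        apply ENNReal.ofReal_le_ofReal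
        have ht1 : 1 ≤ |t| := ht
        have ht0 : 0 < |t| := by linarith
        rw [Real.norm_eq_abs]
        have h1 : (2 * |t|) ^ (-w) ≤ (1 + |t|) ^ (-w) :=
          Real.rpow_le_rpow_of_nonpos (by linarith) (by linarith) (by linarith)
        rw [Real.mul_rpow (by norm_num) ht0.le] at h1
        have h2 : (2 : ℝ) ^ w * (2 : ℝ) ^ (-w) = 1 := by
          rw [← Real.rpow_add (by norm_num)]; simp
        calc |t| ^ (-w) = 2 ^ w * (2 ^ (-w) * |t| ^ (-w)) := by rw [← mul_assoc, h2, one_mul]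
          _ ≤ 2 ^ w * (1 + |t|) ^ (-w) := mul_le_mul_of_nonneg_left h1 (by positivity)
    _ ≤ ∫⁻ t, ENNReal.ofReal (2 ^ w * (1 + ‖t‖) ^ (-w)) := setLIntegral_le_lintegral _ _

/-- (Z4) -/
theorem t_Z4 : S_Z2 → S_Z3 → S_Z4 := by
  intro h2 h3 J k σ hJ hK hσ hσ0 hσ1
  obtain ⟨C, hC, h2⟩ := h2 σ hσ0 hσ1
  obtain ⟨K, hKd⟩ : ∃ K : ℝ, K = ((J + k : ℕ) : ℝ) := ⟨_, rfl⟩
  rw [← hKd] at hσ
  have hK1 : 1 ≤ K := by rw [hKd]; exact_mod_cast hK
  have hK2 : K = J + k := by rw [hKd]; push_cast; rfl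
  have hw1 : K * (1 - 2 * σ) < 1 := by
    rw [div_lt_iff₀ (by linarith)] at hσ
    linarith
  obtain ⟨w, hw⟩ : ∃ w, w = 2 - K * (1 - 2 * σ) := ⟨_, rfl⟩
  have hw2 : 1 < w := by rw [hw]; linarith
  have h3 := h3 (1 - σ) w (by linarith) (by linarith) hw2
  have hpt : ∀ t ∈ {t : ℝ | 1 ≤ |t|}, ‖riemannZeta (σ + t * Complex.I)‖ₑ ^ (2 * J) *
      ENNReal.ofReal (|t| ^ ((k : ℝ) * (1 - 2 * σ) - 2)) ≤ ENNReal.ofReal (C ^ (2 * J)) *
      (ENNReal.ofReal (|t| ^ (-w)) + ‖riemannZeta ((1 - σ : ℝ) + t * Complex.I)‖ₑ ^ 4 * ENNReal.ofReal (|t| ^ (-w))) := by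
    intro t ht
    have ht1 : 1 ≤ |t| := ht
    have ht0 : 0 < |t| := by linarith
    have hb := h2 t ht1
    obtain ⟨z, hz⟩ : ∃ z, z = ‖riemannZeta (σ + t * Complex.I)‖ := ⟨_, rfl⟩
    obtain ⟨z', hz'⟩ : ∃ z', z' = ‖riemannZeta ((1 - σ : ℝ) + t * Complex.I)‖ := ⟨_, rfl⟩
    have hz0 : 0 ≤ z := by rw [hz]; exact norm_nonneg _
    have hz'0 : 0 ≤ z' := by rw [hz']; exact norm_nonneg _
    rw [← ofReal_norm_eq_enorm, ← ofReal_norm_eq_enorm, ← hz, ← hz', ← ENNReal.ofReal_pow hz0, ← ENNReal.ofReal_pow hz'0,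
      ← ENNReal.ofReal_mul (by positivity), ← ENNReal.ofReal_mul (by positivity),
      ← ENNReal.ofReal_add (by positivity) (by positivity), ← ENNReal.ofReal_mul (by positivity)]
    apply ENNReal.ofReal_le_ofReal
    rw [← hz, ← hz'] at hb
    have e1 : z ^ (2 * J) ≤ (C * |t| ^ (1 / 2 - σ) * z') ^ (2 * J) := pow_le_pow_left₀ hz0 hb _
    have e2 : (|t| ^ (1 / 2 - σ)) ^ (2 * J) = |t| ^ ((J : ℝ) * (1 - 2 * σ)) := by
      rw [← Real.rpow_natCast, ← Real.rpow_mul ht0.le]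
      congr 1
      push_cast
      ring
    have e3 : |t| ^ ((J : ℝ) * (1 - 2 * σ)) * |t| ^ ((k : ℝ) * (1 - 2 * σ) - 2) = |t| ^ (-w) := by
      rw [← Real.rpow_add ht0]
      congr 1
      rw [hw, hK2]; ring
    have e4 : z' ^ (2 * J) ≤ 1 + z' ^ 4 := by
      have hJ' : J = 0 ∨ J = 1 ∨ J = 2 := by omega
      rcases hJ' with rfl | rfl | rfl
      · have : 0 ≤ z' ^ 4 := by positivity
        simp only [Nat.mul_zero, pow_zero]
        linarith
      · have a1 : 0 ≤ (z' ^ 2 - 1) ^ 2 := sq_nonneg _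
        have a2 : 0 ≤ z' ^ 2 := by positivity
        have a3 : (z' ^ 2 - 1) ^ 2 = z' ^ 4 - 2 * z' ^ 2 + 1 := by ring
        have a4 : z' ^ (2 * 1) = z' ^ 2 := by norm_num
        rw [a4]
        linarith
      · norm_num
    calc z ^ (2 * J) * |t| ^ ((k : ℝ) * (1 - 2 * σ) - 2) ≤
          (C * |t| ^ (1 / 2 - σ) * z') ^ (2 * J) * |t| ^ ((k : ℝ) * (1 - 2 * σ) - 2) :=
          mul_le_mul_of_nonneg_right e1 (by positivity)
      _ = C ^ (2 * J) * z' ^ (2 * J) * |t| ^ (-w) := by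
          rw [mul_pow, mul_pow, e2, ← e3]; ring
      _ ≤ C ^ (2 * J) * (1 + z' ^ 4) * |t| ^ (-w) := by
          apply mul_le_mul_of_nonneg_right _ (by positivity)
          exact mul_le_mul_of_nonneg_left e4 (by positivity)
      _ = C ^ (2 * J) * (|t| ^ (-w) + z' ^ 4 * |t| ^ (-w)) := by ring
  refine lt_of_le_of_lt (setLIntegral_mono' meas_S hpt) ?_
  rw [lintegral_const_mul' _ _ ENNReal.ofReal_ne_top]
  refine ENNReal.mul_lt_top ENNReal.ofReal_lt_top ?_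
  rw [lintegral_add_left (by fun_prop)]
  exact ENNReal.add_lt_top.2 ⟨tail_fin hw2, h3⟩

end Pool.Agent.J4H94.GS
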