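import Pool.Agent.J4H38.GS.Stm2
import Pool.Agent.J4H77.PE.Kern
import Pool.Agent.J4H94.GS.Z4

/-!
# Project GS (helper38), (Z3): the fourth moment of the zeta function on the lines to the right of `1/2`
-/

set_option autoImplicit false

open MeasureTheory Set Filter

namespace Pool.Agent.J4H94.GS

open Pool.Agent.J4H38.GS
open Pool.Agent.J4H77.PE (Zf Zf_diff Zf_cont Zf_le le_Zf Zf_growth cauchy_gauss norm_quad)

lemma wt_le {w : ℝ} (hw : 0 ≤ w) (t y : ℝ) :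
    (1 + |t|) ^ (-w) ≤ (1 + |y|) ^ w * (1 + |t + y|) ^ (-w) := by
  have h1 : (0 : ℝ) < 1 + |t| := by positivity
  have h2 : (0 : ℝ) < 1 + |y| := by positivity
  have h3 : (0 : ℝ) < 1 + |t + y| := by positivity
  have h4 : 1 + |t + y| ≤ (1 + |t|) * (1 + |y|) := by
    nlinarith [abs_add_le t y, mul_nonneg (abs_nonneg t) (abs_nonneg y)]
  have h5 : (1 + |t + y|) ^ w ≤ (1 + |t|) ^ w * (1 + |y|) ^ w := by
    rw [← Real.mul_rpow h1.le h2.le]
    exact Real.rpow_le_rpow h3.le h4 hw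
  have p1 : 0 < (1 + |t|) ^ w := Real.rpow_pos_of_pos h1 _
  have p3 : 0 < (1 + |t + y|) ^ w := Real.rpow_pos_of_pos h3 _
  rw [Real.rpow_neg h1.le, Real.rpow_neg h3.le, ← div_eq_mul_inv, inv_eq_one_div, div_le_div_iff₀ p1 p3, one_mul]
  linarith

lemma shift_le {w : ℝ} (hw : 0 ≤ w) (f : ℝ → ENNReal) (y : ℝ) :
    ∫⁻ t : ℝ, f (t + y) * ENNReal.ofReal ((1 + |t|) ^ (-w)) ≤
      ENNReal.ofReal ((1 + |y|) ^ w) * ∫⁻ t : ℝ, f t * ENNReal.ofReal ((1 + |t|) ^ (-w)) := by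
  rw [← lintegral_add_right_eq_self (fun t => f t * ENNReal.ofReal ((1 + |t|) ^ (-w))) y,
    ← lintegral_const_mul' _ _ ENNReal.ofReal_ne_top]
  apply lintegral_mono
  intro t
  simp only
  have h2 : (0 : ℝ) < 1 + |y| := by positivity
  calc f (t + y) * ENNReal.ofReal ((1 + |t|) ^ (-w))
      ≤ f (t + y) * ENNReal.ofReal ((1 + |y|) ^ w * (1 + |t + y|) ^ (-w)) := by
        gcongr
        exact wt_le hw t y
    _ = ENNReal.ofReal ((1 + |y|) ^ w) * (f (t + y) * ENNReal.ofReal ((1 + |t + y|) ^ (-w))) := by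
        rw [ENNReal.ofReal_mul (Real.rpow_nonneg h2.le _)]
        ring

/-- the kernel against the weight -/
lemma kern_fin (w c : ℝ) (hw : 0 ≤ w) (δ : ℝ) :
    ∫⁻ y : ℝ, ENNReal.ofReal (Real.exp (δ ^ 2 - y ^ 2) * c) * ENNReal.ofReal ((1 + |y|) ^ w) < ⊤ := by
  have hi : Integrable (fun y : ℝ => (Real.exp (δ ^ 2) * |c| * Real.exp (w ^ 2 / 2)) * Real.exp (-(1 / 2) * y ^ 2)) :=
    (integrable_exp_neg_mul_sq (by norm_num)).const_mul _
  have h1 : ∫⁻ y : ℝ, ENNReal.ofReal (Real.exp (δ ^ 2 - y ^ 2) * c) * ENNReal.ofReal ((1 + |y|) ^ w) ≤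
      ∫⁻ y : ℝ, ENNReal.ofReal ((Real.exp (δ ^ 2) * |c| * Real.exp (w ^ 2 / 2)) * Real.exp (-(1 / 2) * y ^ 2)) := by
    apply lintegral_mono
    intro y
    simp only
    have hb : (1 + |y|) ^ w ≤ Real.exp (w * |y|) := by
      have : 1 + |y| ≤ Real.exp |y| := by linarith [Real.add_one_le_exp |y|]
      calc (1 + |y|) ^ w ≤ (Real.exp |y|) ^ w := Real.rpow_le_rpow (by positivity) this hw
        _ = Real.exp (w * |y|) := by rw [← Real.exp_mul, mul_comm]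
    calc ENNReal.ofReal (Real.exp (δ ^ 2 - y ^ 2) * c) * ENNReal.ofReal ((1 + |y|) ^ w)
        ≤ ENNReal.ofReal (Real.exp (δ ^ 2 - y ^ 2) * |c|) * ENNReal.ofReal (Real.exp (w * |y|)) := by
          gcongr
          exact le_abs_self c
      _ = ENNReal.ofReal (Real.exp (δ ^ 2 - y ^ 2) * |c| * Real.exp (w * |y|)) := by
          rw [← ENNReal.ofReal_mul (by positivity)]
      _ ≤ _ := by
          apply ENNReal.ofReal_le_ofReal
          have e : Real.exp (δ ^ 2 - y ^ 2) * |c| * Real.exp (w * |y|) =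
              |c| * Real.exp (δ ^ 2 - y ^ 2 + w * |y|) := by rw [Real.exp_add]; ring
          have e2 : (Real.exp (δ ^ 2) * |c| * Real.exp (w ^ 2 / 2)) * Real.exp (-(1 / 2) * y ^ 2) =
              |c| * Real.exp (δ ^ 2 + w ^ 2 / 2 + -(1 / 2) * y ^ 2) := by rw [Real.exp_add, Real.exp_add]; ring
          rw [e, e2]
          apply mul_le_mul_of_nonneg_left _ (abs_nonneg _)
          apply Real.exp_le_exp.2
          nlinarith [sq_nonneg (w - |y|), sq_abs y]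
  refine lt_of_le_of_lt h1 ?_
  have h2 := hi.2
  rw [HasFiniteIntegral] at h2
  refine lt_of_le_of_lt (le_of_eq ?_) h2
  apply lintegral_congr
  intro y
  rw [Real.enorm_eq_ofReal (by positivity)]

/-- the weighted moment -/
noncomputable def NN (w σ : ℝ) : ENNReal := ∫⁻ t : ℝ, ‖Zf (σ + t * Complex.I)‖ₑ ^ 4 * ENNReal.ofReal ((1 + |t|) ^ (-w))

/-- one of the two lines -/
noncomputable def JJ (σ δ t : ℝ) : ENNReal := ∫⁻ y : ℝ, ‖Zf ((σ + δ : ℝ) + ((t + y : ℝ) : ℂ) * Complex.I)‖ₑ ^ 4 *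
  ENNReal.ofReal (Real.exp (δ ^ 2 - y ^ 2) * |δ|⁻¹)

lemma JJ_bound {σ δ : ℝ} (hδ : δ ≠ 0) (t : ℝ) :
    ‖∫ y : ℝ, Zf ((σ + t * Complex.I) + (δ + y * Complex.I)) ^ 4 *
      (Complex.exp ((δ + y * Complex.I) ^ 2) / (δ + y * Complex.I))‖ₑ ≤ JJ σ δ t := by
  refine (enorm_integral_le_lintegral_enorm _).trans ?_
  unfold JJ
  apply lintegral_mono
  intro y
  simp only
  have e2 : (σ + t * Complex.I : ℂ) + (δ + y * Complex.I) = (σ + δ : ℝ) + ((t + y : ℝ) : ℂ) * Complex.I := by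
    push_cast
    ring
  rw [e2, enorm_mul, enorm_pow]
  gcongr
  rw [← ofReal_norm_eq_enorm]
  apply ENNReal.ofReal_le_ofReal
  rw [norm_div, norm_quad, div_eq_mul_inv]
  apply mul_le_mul_of_nonneg_left _ (Real.exp_pos _).le
  apply inv_anti₀ (abs_pos.2 hδ)
  have := Complex.abs_re_le_norm (δ + y * Complex.I : ℂ)
  simpa using this

lemma JJ_int {w : ℝ} (hw : 0 ≤ w) {σ δ : ℝ} (hs : -1 < σ + δ) (h : NN w (σ + δ) < ⊤) :
    ∫⁻ t : ℝ, JJ σ δ t * ENNReal.ofReal ((1 + |t|) ^ (-w)) < ⊤ := by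
  have hc : Continuous (fun t : ℝ => Zf ((σ + δ : ℝ) + t * Complex.I)) := Zf_cont hs
  have hc4 : Measurable (fun t : ℝ => ‖Zf ((σ + δ : ℝ) + t * Complex.I)‖ₑ ^ 4) := by
    have := hc.measurable
    fun_prop
  have e : ∫⁻ t : ℝ, JJ σ δ t * ENNReal.ofReal ((1 + |t|) ^ (-w)) =
      ∫⁻ y : ℝ, ENNReal.ofReal (Real.exp (δ ^ 2 - y ^ 2) * |δ|⁻¹) *
        ∫⁻ t : ℝ, ‖Zf ((σ + δ : ℝ) + ((t + y : ℝ) : ℂ) * Complex.I)‖ₑ ^ 4 * ENNReal.ofReal ((1 + |t|) ^ (-w)) := by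
    unfold JJ
    have e1 : ∀ t : ℝ, (∫⁻ y : ℝ, ‖Zf ((σ + δ : ℝ) + ((t + y : ℝ) : ℂ) * Complex.I)‖ₑ ^ 4 *
        ENNReal.ofReal (Real.exp (δ ^ 2 - y ^ 2) * |δ|⁻¹)) * ENNReal.ofReal ((1 + |t|) ^ (-w)) =
        ∫⁻ y : ℝ, ‖Zf ((σ + δ : ℝ) + ((t + y : ℝ) : ℂ) * Complex.I)‖ₑ ^ 4 *
        ENNReal.ofReal (Real.exp (δ ^ 2 - y ^ 2) * |δ|⁻¹) * ENNReal.ofReal ((1 + |t|) ^ (-w)) := by
      intro t
      rw [lintegral_mul_const' _ _ ENNReal.ofReal_ne_top]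
    simp_rw [e1]
    rw [lintegral_lintegral_swap]
    · apply lintegral_congr
      intro y
      rw [← lintegral_const_mul' _ _ ENNReal.ofReal_ne_top]
      apply lintegral_congr
      intro t
      ring
    · apply Measurable.aemeasurable
      have h1 : Measurable (fun p : ℝ × ℝ => ‖Zf ((σ + δ : ℝ) + ((p.1 + p.2 : ℝ) : ℂ) * Complex.I)‖ₑ ^ 4) :=
        hc4.comp (measurable_fst.add measurable_snd)
      have h2 : Measurable (fun p : ℝ × ℝ => ENNReal.ofReal (Real.exp (δ ^ 2 - p.2 ^ 2) * |δ|⁻¹)) := by fun_prop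
      have h3 : Measurable (fun p : ℝ × ℝ => ENNReal.ofReal ((1 + |p.1|) ^ (-w))) := by fun_prop
      exact (h1.mul h2).mul h3
  rw [e]
  have h2 : ∫⁻ y : ℝ, ENNReal.ofReal (Real.exp (δ ^ 2 - y ^ 2) * |δ|⁻¹) *
        ∫⁻ t : ℝ, ‖Zf ((σ + δ : ℝ) + ((t + y : ℝ) : ℂ) * Complex.I)‖ₑ ^ 4 * ENNReal.ofReal ((1 + |t|) ^ (-w)) ≤
      ∫⁻ y : ℝ, (ENNReal.ofReal (Real.exp (δ ^ 2 - y ^ 2) * |δ|⁻¹) * ENNReal.ofReal ((1 + |y|) ^ w)) * NN w (σ + δ) := by
    apply lintegral_mono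
    intro y
    simp only
    rw [mul_assoc]
    gcongr
    exact shift_le hw (fun t : ℝ => ‖Zf ((σ + δ : ℝ) + t * Complex.I)‖ₑ ^ 4) y
  refine lt_of_le_of_lt h2 ?_
  rw [lintegral_mul_const' _ _ h.ne]
  exact ENNReal.mul_lt_top (kern_fin w _ hw δ) h

/-- convexity -/
lemma NN_conv {w : ℝ} (hw : 0 ≤ w) {σ : ℝ} (h1 : 1 / 2 < σ) (h2 : σ < 2) (ha : NN w (1 / 2) < ⊤) (hb : NN w 2 < ⊤) :
    NN w σ < ⊤ := by
  obtain ⟨C, hg⟩ := Zf_growth 4
  have hF : ∀ z : ℂ, -1 < z.re → DifferentiableAt ℂ (fun s => Zf s ^ 4) z := fun z hz => (Zf_diff hz).pow 4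
  have hA : 0 < σ - 1 / 2 := by linarith
  have hB : 0 < 2 - σ := by linarith
  have hpt : ∀ t : ℝ, ‖Zf (σ + t * Complex.I)‖ₑ ^ 4 ≤ JJ σ (2 - σ) t + JJ σ (-(σ - 1 / 2)) t := by
    intro t
    have h := cauchy_gauss hF hg (s₀ := σ + t * Complex.I) hA hB (by simp) (by simp)
    have h3 : ‖(2 * Real.pi * Zf (σ + t * Complex.I) ^ 4 : ℂ)‖ₑ ≤ JJ σ (2 - σ) t + JJ σ (-(σ - 1 / 2)) t := by
      rw [h]
      refine enorm_sub_le.trans ?_
      exact add_le_add (JJ_bound hB.ne' t) (JJ_bound (neg_ne_zero.2 hA.ne') t)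
    refine le_trans ?_ h3
    rw [enorm_mul, enorm_pow]
    refine le_mul_of_one_le_left (by positivity) ?_
    rw [← ofReal_norm_eq_enorm, norm_mul, Complex.norm_ofNat, Complex.norm_real, Real.norm_of_nonneg Real.pi_pos.le,
      ← ENNReal.ofReal_one]
    apply ENNReal.ofReal_le_ofReal
    linarith [Real.pi_gt_three]
  have i1 := JJ_int hw (σ := σ) (δ := 2 - σ) (by linarith) (by rw [show σ + (2 - σ) = 2 by ring]; exact hb)
  have i2 := JJ_int hw (σ := σ) (δ := -(σ - 1 / 2)) (by linarith) (by rw [show σ + -(σ - 1 / 2) = 1 / 2 by ring]; exact ha)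
  have hm : Measurable (fun t : ℝ => JJ σ (2 - σ) t * ENNReal.ofReal ((1 + |t|) ^ (-w))) := by
    have hc : Continuous (fun t : ℝ => Zf ((σ + (2 - σ) : ℝ) + t * Complex.I)) := Zf_cont (by linarith)
    have hc4 : Measurable (fun t : ℝ => ‖Zf ((σ + (2 - σ) : ℝ) + t * Complex.I)‖ₑ ^ 4) := by
      have := hc.measurable
      fun_prop
    refine Measurable.mul ?_ (by fun_prop)
    unfold JJ
    apply Measurable.lintegral_prod_right'
      (f := fun p : ℝ × ℝ => ‖Zf ((σ + (2 - σ) : ℝ) + ((p.1 + p.2 : ℝ) : ℂ) * Complex.I)‖ₑ ^ 4 *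
        ENNReal.ofReal (Real.exp ((2 - σ) ^ 2 - p.2 ^ 2) * |2 - σ|⁻¹))
    have h1 : Measurable (fun p : ℝ × ℝ => ‖Zf ((σ + (2 - σ) : ℝ) + ((p.1 + p.2 : ℝ) : ℂ) * Complex.I)‖ₑ ^ 4) :=
      hc4.comp (measurable_fst.add measurable_snd)
    exact h1.mul (by fun_prop)
  unfold NN
  calc ∫⁻ t : ℝ, ‖Zf (σ + t * Complex.I)‖ₑ ^ 4 * ENNReal.ofReal ((1 + |t|) ^ (-w))
      ≤ ∫⁻ t : ℝ, (JJ σ (2 - σ) t * ENNReal.ofReal ((1 + |t|) ^ (-w)) +
          JJ σ (-(σ - 1 / 2)) t * ENNReal.ofReal ((1 + |t|) ^ (-w))) := by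
        apply lintegral_mono
        intro t
        simp only
        rw [← add_mul]
        gcongr
        exact hpt t
    _ = _ := lintegral_add_left hm _
    _ < ⊤ := ENNReal.add_lt_top.2 ⟨i1, i2⟩

/-- from the tails to the whole line -/
lemma full {w : ℝ} (hw : 0 ≤ w) {σ : ℝ} (h0 : 0 ≤ σ)
    (h : ∫⁻ t in {t : ℝ | 1 ≤ |t|}, ‖riemannZeta (σ + t * Complex.I)‖ₑ ^ 4 * ENNReal.ofReal (|t| ^ (-w)) < ⊤) :
    NN w σ < ⊤ := by
  unfold NN
  rw [← lintegral_add_compl _ meas_S]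
  refine ENNReal.add_lt_top.2 ⟨?_, ?_⟩
  · refine lt_of_le_of_lt (setLIntegral_mono' meas_S ?_) h
    intro t ht
    have ht1 : 1 ≤ |t| := ht
    gcongr ?_ ^ 4 * ENNReal.ofReal ?_
    · rw [← ofReal_norm_eq_enorm, ← ofReal_norm_eq_enorm]
      apply ENNReal.ofReal_le_ofReal
      apply Zf_le (by simpa using h0)
      intro h1
      have h2 : (σ + t * Complex.I : ℂ).im = 0 := by rw [h1]; simp
      simp at h2
      rw [h2] at ht1
      simp at ht1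
      linarith
    · rw [Real.rpow_neg (by positivity), Real.rpow_neg (by positivity)]
      apply inv_anti₀ (Real.rpow_pos_of_pos (by linarith) _)
      exact Real.rpow_le_rpow (by positivity) (by linarith) hw
  · have hc : Continuous (fun t : ℝ => ‖Zf (σ + t * Complex.I)‖) := (Zf_cont (by linarith)).norm
    obtain ⟨B, hB⟩ := (isCompact_Icc (a := (-1 : ℝ)) (b := 1)).exists_bound_of_continuousOn hc.continuousOn
    have hsub : {t : ℝ | 1 ≤ |t|}ᶜ ⊆ Icc (-1 : ℝ) 1 := by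
      intro t ht
      have : |t| < 1 := not_le.1 ht
      exact ⟨(abs_lt.1 this).1.le, (abs_lt.1 this).2.le⟩
    have hb : ∀ t ∈ {t : ℝ | 1 ≤ |t|}ᶜ, ‖Zf (σ + t * Complex.I)‖ₑ ^ 4 * ENNReal.ofReal ((1 + |t|) ^ (-w)) ≤
        ENNReal.ofReal B ^ 4 * 1 := by
      intro t ht
      have h1 := hB t (hsub ht)
      rw [norm_norm] at h1
      gcongr
      · rw [← ofReal_norm_eq_enorm]
        exact ENNReal.ofReal_le_ofReal h1
      · rw [← ENNReal.ofReal_one]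
        apply ENNReal.ofReal_le_ofReal
        exact Real.rpow_le_one_of_one_le_of_nonpos (by linarith [abs_nonneg t]) (by linarith)
    refine lt_of_le_of_lt (setLIntegral_mono' meas_S.compl hb) ?_
    rw [setLIntegral_const]
    refine ENNReal.mul_lt_top ?_ ?_
    · rw [mul_one]
      exact ENNReal.pow_lt_top ENNReal.ofReal_lt_top
    · refine lt_of_le_of_lt (measure_mono hsub) ?_
      rw [Real.volume_Icc]
      exact ENNReal.ofReal_lt_top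

lemma zeta_two_le : ∃ C : ℝ, 0 ≤ C ∧ ∀ t : ℝ, ‖riemannZeta ((2 : ℝ) + t * Complex.I)‖ ≤ C := by
  have hs : Summable (fun n : ℕ => 1 / ((n : ℝ) + 1) ^ (2 : ℝ)) := by
    have := (summable_nat_add_iff 1).2 (Real.summable_one_div_nat_rpow.2 (by norm_num : (1 : ℝ) < 2))
    simpa using this
  refine ⟨∑' n : ℕ, 1 / ((n : ℝ) + 1) ^ (2 : ℝ), tsum_nonneg fun n => by positivity, fun t => ?_⟩
  rw [zeta_eq_tsum_one_div_nat_add_one_cpow (by simp)]
  have hn : ∀ n : ℕ, ‖1 / ((n : ℂ) + 1) ^ (((2 : ℝ) : ℂ) + t * Complex.I)‖ = 1 / ((n : ℝ) + 1) ^ (2 : ℝ) := by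
    intro n
    rw [norm_div, norm_one]
    congr 1
    have : ((n : ℂ) + 1) = (((n : ℝ) + 1 : ℝ) : ℂ) := by push_cast; ring
    rw [this, Complex.norm_cpow_eq_rpow_re_of_pos (by positivity)]
    simp
  refine (norm_tsum_le_tsum_norm ?_).trans (le_of_eq ?_)
  · simp_rw [hn]
    exact hs
  · simp_rw [hn]

theorem t_Z3 : S_Z3A → S_Z3 := by
  intro hA σ w hσ0 hσ1 hw
  have hw0 : 0 ≤ w := by linarith
  rcases hσ0.eq_or_lt with h | h
  · have := hA w hw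
    rw [← h]
    exact this
  have ha : NN w (1 / 2) < ⊤ := full hw0 (by norm_num) (hA w hw)
  have hb : NN w 2 < ⊤ := by
    apply full hw0 (by norm_num)
    obtain ⟨C, hC, hz⟩ := zeta_two_le
    have : ∫⁻ t in {t : ℝ | 1 ≤ |t|}, ‖riemannZeta ((2 : ℝ) + t * Complex.I)‖ₑ ^ 4 * ENNReal.ofReal (|t| ^ (-w)) ≤
        ∫⁻ t in {t : ℝ | 1 ≤ |t|}, ENNReal.ofReal C ^ 4 * ENNReal.ofReal (|t| ^ (-w)) := by
      apply lintegral_mono
      intro t
      simp only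
      gcongr
      rw [← ofReal_norm_eq_enorm]
      exact ENNReal.ofReal_le_ofReal (hz t)
    refine lt_of_le_of_lt this ?_
    rw [lintegral_const_mul' _ _ (ENNReal.pow_ne_top ENNReal.ofReal_ne_top)]
    exact ENNReal.mul_lt_top (ENNReal.pow_lt_top ENNReal.ofReal_lt_top) (tail_fin hw)
  have hN := NN_conv hw0 h (by linarith) ha hb
  have hpt : ∀ t ∈ {t : ℝ | 1 ≤ |t|}, ‖riemannZeta (σ + t * Complex.I)‖ₑ ^ 4 * ENNReal.ofReal (|t| ^ (-w)) ≤
      (ENNReal.ofReal 3 ^ 4 * ENNReal.ofReal (2 ^ w)) * (‖Zf (σ + t * Complex.I)‖ₑ ^ 4 * ENNReal.ofReal ((1 + |t|) ^ (-w))) := by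
    intro t ht
    have ht1 : 1 ≤ |t| := ht
    have h1 : ‖riemannZeta (σ + t * Complex.I)‖ₑ ≤ ENNReal.ofReal 3 * ‖Zf (σ + t * Complex.I)‖ₑ := by
      rw [← ofReal_norm_eq_enorm, ← ofReal_norm_eq_enorm, ← ENNReal.ofReal_mul (by norm_num)]
      apply ENNReal.ofReal_le_ofReal
      exact le_Zf (by simpa using ht1)
    have h2 : |t| ^ (-w) ≤ 2 ^ w * (1 + |t|) ^ (-w) := by
      have p1 : (0 : ℝ) < |t| := by linarith
      have p2 : (0 : ℝ) < 1 + |t| := by linarith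
      have q1 : 0 < |t| ^ w := Real.rpow_pos_of_pos p1 _
      have q2 : 0 < (1 + |t|) ^ w := Real.rpow_pos_of_pos p2 _
      rw [Real.rpow_neg p1.le, Real.rpow_neg p2.le, ← div_eq_mul_inv, inv_eq_one_div, div_le_div_iff₀ q1 q2, one_mul,
        ← Real.mul_rpow (by norm_num) p1.le]
      exact Real.rpow_le_rpow p2.le (by linarith) hw0
    calc ‖riemannZeta (σ + t * Complex.I)‖ₑ ^ 4 * ENNReal.ofReal (|t| ^ (-w))
        ≤ (ENNReal.ofReal 3 * ‖Zf (σ + t * Complex.I)‖ₑ) ^ 4 * ENNReal.ofReal (2 ^ w * (1 + |t|) ^ (-w)) := by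
          gcongr
      _ = _ := by
          rw [ENNReal.ofReal_mul (by positivity), mul_pow]
          ring
  refine lt_of_le_of_lt (setLIntegral_mono' meas_S hpt) ?_
  rw [lintegral_const_mul' _ _ (by finiteness)]
  refine ENNReal.mul_lt_top (by finiteness) ?_
  exact lt_of_le_of_lt (setLIntegral_le_lintegral _ _) hN

end Pool.Agent.J4H94.GS
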